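import Mathlib
import Pool.Agent.H780.GC.Defs
import Pool.Agent.H780.GC.Final

/-!
# A positively curved two-sphere with dense geodesics (part (c) of Q1)

The metric is the Jacobi metric
`(1 - x₁/20) (|v|² - 3 (x₁ v₂ - x₂ v₁)² / (1 + 3 (x₁² + x₂²)))`
of the integrable case of Goryachev and Chaplygin.  Its geodesic flow has the cubic integral
`F = M₃ (M₁² + M₂²) - x₃ M₁ / 20`.

* The Gauss curvature is positive (computation in spherical coordinates, and in stereographic
  coordinates at the poles): modules `Curv`, `Curv2`.
* For small `G > 0` the flow on the invariant torus `F = G` is separated by the angles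
  `χ₁, χ₂`, `s³ = (2 + cos χ / 10) s + 2 G`, and after a change of time it becomes linear:
  modules `Roots`, `TimeChange`, `Flow`, `Geo`, `Torus`.
* The torus projects onto the whole sphere: modules `Cover`, `Ellipse`, `Level`.
* The ratio of the two periods is strictly monotone in `G`, hence irrational for all but countably
  many values of `G`, and then each geodesic of the torus is dense in the sphere: modules `Torus`,
  `Final`.
-/

set_option autoImplicit false

namespace Pool.Agent.Results.MP_d2b992_gt.DenseGeodesics

open Pool.Agent.H780.GC

/-- There is a smooth Riemannian metric on `S²` of positive curvature such that, at each point of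
`S²`, all but countably many directions in some nonempty open set of unit directions are initial
velocities of geodesics which are everywhere dense in `S²`. -/
theorem result : ∃ g : SphereMetric, g.PositivelyCurved ∧
    ∀ x ∈ S2, ∃ U : Set R3, IsOpen U ∧ (U ∩ g.unitTangent x).Nonempty ∧
      ∃ C : Set R3, C.Countable ∧ ∀ v ∈ (U ∩ g.unitTangent x) \ C,
        ∃ γ : ℝ → R3, g.IsGeodesic γ ∧ γ 0 = x ∧ deriv γ 0 = v ∧ S2 ⊆ closure (Set.range γ) :=
  ⟨gcMetric, main⟩

end Pool.Agent.Results.MP_d2b992_gt.DenseGeodesics
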